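import Pool.Agent.W912.ND.Defs
import Pool.Agent.H622R2.Ckt.CNT

/-!
# Few circuits up to equivalence, with the same size and depth
-/

set_option autoImplicit false

namespace Pool.Agent.W995.ND.CNTD

open Pool.Agent.NPC Pool.Agent.H620R2.Gauge Pool.Agent.H622R2.Ckt H568R2 Finset
open Pool.Agent.W912.ND

theorem nrmW_dep {n k : ℕ} {d : List ℕ} (hd : d.length ≤ k) (r : Wire) :
    wdep d (CNT.nrmW n k r) = wdep d r := by
  cases r with
  | inp i =>
    simp only [CNT.nrmW]
    split_ifs with h
    · rfl
    · rfl
  | cst b => rfl
  | gate j =>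
    simp only [CNT.nrmW]
    split_ifs with h
    · rfl
    · simp only [wdep]
      rw [List.getD_eq_default _ _ (by omega)]

theorem nrmG_dep {n k : ℕ} {d : List ℕ} (hd : d.length ≤ k) (g : Gate) :
    gdep d (CNT.nrmG n k g) = gdep d g := by
  cases g with
  | and r s => simp only [CNT.nrmG, gdep, nrmW_dep hd]
  | or r s => simp only [CNT.nrmG, gdep, nrmW_dep hd]
  | not r => simp only [CNT.nrmG, gdep, nrmW_dep hd]
  | ask l =>
    simp only [CNT.nrmG, gdep, List.map_map, List.length_map]
    congr 2
    apply List.map_congr_left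
    intro r _
    exact nrmW_dep hd r

theorem foldl_dep {n k : ℕ} (gs : List Gate) :
    ∀ d : List ℕ, d.length + gs.length ≤ k →
    (gs.map (CNT.nrmG n k)).foldl (fun d g => d ++ [gdep d g]) d =
      gs.foldl (fun d g => d ++ [gdep d g]) d := by
  induction gs with
  | nil => intro d _; rfl
  | cons g gs ih =>
    intro d hd
    rw [List.length_cons] at hd
    simp only [List.map_cons, List.foldl_cons]
    rw [nrmG_dep (by omega)]
    apply ih
    rw [List.length_append, List.length_singleton]
    omega

theorem length_foldl_dep (gs : List Gate) : ∀ d : List ℕ,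
    (gs.foldl (fun d g => d ++ [gdep d g]) d).length = d.length + gs.length := by
  induction gs with
  | nil => intro d; rfl
  | cons g gs ih =>
    intro d
    rw [List.foldl_cons, ih, List.length_append, List.length_singleton, List.length_cons]
    omega

theorem nrm_depth {n k : ℕ} {C : Circuit} (hC : C.size ≤ k) :
    depth (CNT.nrm n k C) = depth C := by
  have h1 := (CNT.length_gates_le C).trans hC
  unfold depth
  have h2 : gateDeps (CNT.nrm n k C).gates = gateDeps C.gates := by
    unfold gateDeps CNT.nrm
    exact foldl_dep C.gates [] (by simpa using h1)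
  rw [h2]
  unfold CNT.nrm
  apply nrmW_dep
  unfold gateDeps
  rw [length_foldl_dep]
  simpa using h1

theorem main : S_CNTD := by
  classical
  intro n k
  refine ⟨(Finset.univ : Finset (Fin (4 * k + 4) → CNT.Sy n k)).image
    (fun w => CNT.decode ((List.ofFn w).map (Sum.map CNT.toWire id))), ?_, ?_⟩
  · refine card_image_le.trans (le_of_eq ?_)
    rw [card_univ, Fintype.card_pi]
    simp only [Finset.prod_const, card_univ, Fintype.card_sum, Fintype.card_fin, Fintype.card_bool]
    unfold nC
    congr 1
    omega
  · intro C hC
    refine ⟨CNT.nrm n k C, ?_, by rw [CNT.nrm_size]; exact hC, nrm_depth hC,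
      fun A x hx => CNT.nrm_eval hC A hx⟩
    have hlen : ((CNT.nrm n k C).gates.flatMap CNT.enc).length ≤ 3 * k := by
      refine (CNT.length_encs_le _).trans ?_
      have := CNT.nrm_size n k C
      unfold Circuit.size at this hC
      omega
    obtain ⟨t, ht⟩ : ∃ t, (CNT.encC (CNT.nrm n k C) t).length = 4 * k + 4 := by
      refine ⟨4 * k + 3 - ((CNT.nrm n k C).gates.flatMap CNT.enc).length, ?_⟩
      unfold CNT.encC
      rw [List.length_append, List.length_cons, List.length_replicate]
      omega
    have hr : CNT.encC (CNT.nrm n k C) t ∈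
        Set.range (List.map (Sum.map CNT.toWire id : CNT.Sy n k → Wire ⊕ Fin 6)) := by
      rw [Set.range_list_map]
      exact CNT.encC_range n k C t
    obtain ⟨w, hw⟩ := hr
    have hwl : w.length = 4 * k + 4 := by
      rw [← ht, ← hw, List.length_map]
    refine mem_image.2 ⟨fun i => w.get (i.cast hwl.symm), mem_univ _, ?_⟩
    have h1 : List.ofFn (fun i : Fin (4 * k + 4) => w.get (i.cast hwl.symm)) = w := by
      apply List.ext_getElem
      · rw [List.length_ofFn, hwl]
      · intro i h1 h2
        rw [List.getElem_ofFn]
        rfl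
    rw [h1, hw, CNT.decode_encC]

end Pool.Agent.W995.ND.CNTD
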